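import Pool.Agent.H76.QC.Main

set_option autoImplicit false

/-! # Holomorphic families in the class `Σ`: the mean over the circle -/

namespace Pool.Agent.H76.QC

open Complex Metric Set Filter Topology MeasureTheory

/-- one point -/
theorem point {f : ℂ → ℂ} (hd : DifferentiableOn ℂ f (ball 0 1)) (h0 : f 0 = 0) {b : ℂ} {ρ : ℝ}
    (hb : ‖b‖ < 1) (hρ0 : 0 < ρ) (hρ1 : ρ < 1) {a L : ℝ} (ha : 0 ≤ a) (hL : 0 < L) :
    Real.exp (a * ‖f (ρ * b)‖ ^ 2 / L) ≤ (2 * Real.pi)⁻¹ *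
      ∫ φ in (0 : ℝ)..(2 * Real.pi), Real.exp (a * ‖b‖ ^ 2 * ‖f (T b ρ (circleMap 0 1 φ))‖ ^ 2 / L) := by
  have hg : DifferentiableOn ℂ (dslope f 0) (ball 0 1) :=
    (Complex.differentiableOn_dslope (ball_mem_nhds 0 one_pos)).2 hd
  have hfg : ∀ l : ℂ, f l = l * dslope f 0 l := by
    intro l
    have h1 := sub_smul_dslope f 0 l
    rw [h0, sub_zero, sub_zero, smul_eq_mul] at h1
    exact h1.symm
  obtain ⟨F, hF⟩ : ∃ F : ℂ → ℂ, F = fun ζ => dslope f 0 (T b ρ ζ) := ⟨_, rfl⟩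
  have hFd : DiffContOnCl ℂ F (ball 0 1) := by
    apply DifferentiableOn.diffContOnCl
    rw [closure_ball (0 : ℂ) one_ne_zero, hF]
    apply hg.comp (T_diff hb)
    intro ζ hζ
    rw [mem_ball_zero_iff]
    exact (T_le hb hρ0.le (mem_closedBall_zero_iff.1 hζ)).trans_lt hρ1
  have hT0 : T b ρ 0 = ρ * b := by
    unfold T
    simp
  have hc : 0 ≤ a * (ρ ^ 2 * ‖b‖ ^ 2) / L := by positivity
  have hj := jensen hFd hc
  have e1 : a * ‖f (ρ * b)‖ ^ 2 / L = a * (ρ ^ 2 * ‖b‖ ^ 2) / L * ‖F 0‖ ^ 2 := by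
    rw [hF]
    simp only
    rw [hT0, hfg (ρ * b), norm_mul, norm_mul, Complex.norm_real, Real.norm_eq_abs, abs_of_pos hρ0]
    ring
  rw [e1]
  refine hj.trans (le_of_eq ?_)
  congr 1
  apply intervalIntegral.integral_congr
  intro φ _
  have h1 : ‖circleMap (0 : ℂ) 1 φ‖ = 1 := by rw [norm_circleMap_zero, abs_one]
  have h2 := T_eq hb hρ0.le h1
  show Real.exp _ = Real.exp _
  congr 1
  rw [hF]
  simp only
  rw [hfg (T b ρ (circleMap 0 1 φ)), norm_mul, h2]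
  ring

/-- the point `r e^{iθ}` -/
noncomputable def ci (r θ : ℝ) : ℂ := (r : ℂ) * Complex.exp ((θ : ℂ) * Complex.I)

theorem ci_norm {r : ℝ} (hr : 0 < r) (θ : ℝ) : ‖ci r θ‖ = r := by
  unfold ci
  rw [norm_mul, Complex.norm_exp_ofReal_mul_I, mul_one, Complex.norm_real, Real.norm_eq_abs,
    abs_of_pos hr]

theorem ci_cont (r : ℝ) : Continuous (ci r) := by
  unfold ci
  fun_prop

/-- the mean over the circle -/
theorem mean_le {H : ℂ → ℂ → ℂ}
    (hH : DifferentiableOn ℂ (fun p : ℂ × ℂ => H p.1 p.2) {p : ℂ × ℂ | ‖p.1‖ < 1 ∧ 1 < ‖p.2‖})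
    (hH0 : ∀ z : ℂ, 1 < ‖z‖ → H 0 z = 0) {a a₁ L ρ C R : ℝ} {b : ℂ} (ha : 0 ≤ a) (hL : 0 < L)
    (hR : 1 < R) (hb : ‖b‖ < 1) (hρ0 : 0 < ρ) (hρ1 : ρ < 1) (hab : a * ‖b‖ ^ 2 ≤ a₁)
    (hC : ∀ l : ℂ, ‖l‖ < 1 → (1 / (2 * Real.pi)) *
      ∫ θ in (0 : ℝ)..(2 * Real.pi), Real.exp (a₁ * ‖H l (ci R θ)‖ ^ 2 / L) ≤ C) :
    (1 / (2 * Real.pi)) * ∫ θ in (0 : ℝ)..(2 * Real.pi),
      Real.exp (a * ‖H (ρ * b) (ci R θ)‖ ^ 2 / L) ≤ C := by
  have hpi : 0 < 2 * Real.pi := by positivity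
  have hz : ∀ θ, 1 < ‖ci R θ‖ := fun θ => by rw [ci_norm (by linarith)]; exact hR
  have hcT : Continuous fun φ : ℝ => T b ρ (circleMap 0 1 φ) :=
    (T_diff hb).continuousOn.comp_continuous (continuous_circleMap 0 1) fun φ => by
      rw [mem_closedBall_zero_iff, norm_circleMap_zero, abs_one]
  have hTn : ∀ φ : ℝ, ‖T b ρ (circleMap 0 1 φ)‖ < 1 := fun φ => by
    have h1 : ‖circleMap (0 : ℂ) 1 φ‖ = 1 := by rw [norm_circleMap_zero, abs_one]
    rw [T_eq hb hρ0.le h1]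
    exact hρ1
  obtain ⟨K, hK⟩ : ∃ K : ℝ → ℝ → ℝ, K = fun θ φ =>
    Real.exp (a₁ * ‖H (T b ρ (circleMap 0 1 φ)) (ci R θ)‖ ^ 2 / L) := ⟨_, rfl⟩
  have hKc : Continuous (Function.uncurry K) := by
    have h1 : Continuous fun p : ℝ × ℝ => H (T b ρ (circleMap 0 1 p.2)) (ci R p.1) := by
      have h2 : Continuous fun p : ℝ × ℝ => ((T b ρ (circleMap 0 1 p.2), ci R p.1) : ℂ × ℂ) :=
        (hcT.comp continuous_snd).prodMk ((ci_cont R).comp continuous_fst)
      exact hH.continuousOn.comp_continuous h2 fun p => ⟨hTn p.2, hz p.1⟩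
    rw [hK]
    exact Real.continuous_exp.comp (((continuous_const.mul (h1.norm.pow 2))).div_const L)
  have hlb : ‖(ρ : ℂ) * b‖ < 1 := by
    rw [norm_mul, Complex.norm_real, Real.norm_eq_abs, abs_of_pos hρ0]
    nlinarith [norm_nonneg b]
  have hc1 : Continuous fun θ : ℝ => Real.exp (a * ‖H (ρ * b) (ci R θ)‖ ^ 2 / L) := by
    have h2 : Continuous fun θ : ℝ => (((ρ : ℂ) * b, ci R θ) : ℂ × ℂ) :=
      continuous_const.prodMk (ci_cont R)
    have h1 : Continuous fun θ : ℝ => H (ρ * b) (ci R θ) :=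
      hH.continuousOn.comp_continuous h2 fun θ => ⟨hlb, hz θ⟩
    exact Real.continuous_exp.comp (((continuous_const.mul (h1.norm.pow 2))).div_const L)
  have hc2 : Continuous fun θ : ℝ => ∫ φ in (0 : ℝ)..(2 * Real.pi), K θ φ :=
    intervalIntegral.continuous_parametric_intervalIntegral_of_continuous' hKc 0 (2 * Real.pi)
  have hKc' : Continuous (Function.uncurry fun φ θ : ℝ => K θ φ) := hKc.comp continuous_swap
  have hc3 : Continuous fun φ : ℝ => ∫ θ in (0 : ℝ)..(2 * Real.pi), K θ φ :=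
    intervalIntegral.continuous_parametric_intervalIntegral_of_continuous' hKc' 0 (2 * Real.pi)
  have s1 : ∫ θ in (0 : ℝ)..(2 * Real.pi), Real.exp (a * ‖H (ρ * b) (ci R θ)‖ ^ 2 / L) ≤
      ∫ θ in (0 : ℝ)..(2 * Real.pi), (2 * Real.pi)⁻¹ * ∫ φ in (0 : ℝ)..(2 * Real.pi), K θ φ := by
    apply intervalIntegral.integral_mono_on hpi.le (hc1.intervalIntegrable _ _)
      ((continuous_const.mul hc2).intervalIntegrable _ _)
    intro θ _
    have hd : DifferentiableOn ℂ (fun l => H l (ci R θ)) (ball 0 1) := by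
      apply hH.comp (differentiableOn_id.prodMk (differentiableOn_const (ci R θ)))
      intro l hl
      exact ⟨mem_ball_zero_iff.1 hl, hz θ⟩
    refine (point hd (hH0 _ (hz θ)) hb hρ0 hρ1 ha hL).trans ?_
    apply mul_le_mul_of_nonneg_left _ (by positivity)
    have hc4 : Continuous fun φ : ℝ => H (T b ρ (circleMap 0 1 φ)) (ci R θ) := by
      have h2 : Continuous fun φ : ℝ => ((T b ρ (circleMap 0 1 φ), ci R θ) : ℂ × ℂ) :=
        hcT.prodMk continuous_const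
      exact hH.continuousOn.comp_continuous h2 fun φ => ⟨hTn φ, hz θ⟩
    have hc5 : ∀ c : ℝ, Continuous fun φ : ℝ =>
        Real.exp (c * ‖H (T b ρ (circleMap 0 1 φ)) (ci R θ)‖ ^ 2 / L) := fun c =>
      Real.continuous_exp.comp (((continuous_const.mul (hc4.norm.pow 2))).div_const L)
    apply intervalIntegral.integral_mono_on hpi.le ((hc5 _).intervalIntegrable _ _)
    · rw [hK]
      exact (hc5 a₁).intervalIntegrable _ _
    · intro φ _
      rw [hK]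
      apply Real.exp_le_exp.2
      apply div_le_div_of_nonneg_right _ hL.le
      exact mul_le_mul_of_nonneg_right hab (sq_nonneg _)
  have s2 : ∫ θ in (0 : ℝ)..(2 * Real.pi), (2 * Real.pi)⁻¹ * ∫ φ in (0 : ℝ)..(2 * Real.pi), K θ φ =
      (2 * Real.pi)⁻¹ * ∫ φ in (0 : ℝ)..(2 * Real.pi), ∫ θ in (0 : ℝ)..(2 * Real.pi), K θ φ := by
    rw [intervalIntegral.integral_const_mul]
    congr 1
    apply MeasureTheory.intervalIntegral_intervalIntegral_swap
    apply (hKc.continuousOn.integrableOn_compact (isCompact_uIcc.prod isCompact_uIcc)).mono_set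
    exact Set.prod_mono Set.uIoc_subset_uIcc Set.uIoc_subset_uIcc
  have s3 : ∫ φ in (0 : ℝ)..(2 * Real.pi), ∫ θ in (0 : ℝ)..(2 * Real.pi), K θ φ ≤
      ∫ φ in (0 : ℝ)..(2 * Real.pi), 2 * Real.pi * C := by
    apply intervalIntegral.integral_mono_on hpi.le (hc3.intervalIntegrable _ _)
      (continuous_const.intervalIntegrable _ _)
    intro φ _
    have h1 := hC _ (hTn φ)
    rw [one_div, inv_mul_le_iff₀ hpi] at h1
    rw [hK]
    exact h1
  rw [intervalIntegral.integral_const, sub_zero, smul_eq_mul] at s3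
  rw [s2] at s1
  rw [one_div, inv_mul_le_iff₀ hpi]
  refine s1.trans ?_
  rw [inv_mul_le_iff₀ hpi]
  exact s3

end Pool.Agent.H76.QC
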