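import Pool.Agent.H76.QC.Fam
import Pool.Agent.H64.G.R_seed8.R250.MC4

set_option autoImplicit false

/-! # Families which are holomorphic for each point: `h_λ(z)` is continuous, and holomorphic in `λ` -/

namespace Pool.Agent.H76.QC

open Complex Metric Set Filter Topology MeasureTheory
open Pool.Agent.W677.Mar Pool.Agent.R250.MC

/-- a uniform bound -/
theorem sig_le {ψ h : ℂ → ℂ} (S : IsSig ψ h) {R : ℝ} (hR : 1 < R) {z : ℂ} (hz : R ≤ ‖z‖) :
    ‖h z‖ ≤ Real.log (R ^ 2 / (R ^ 2 - 1)) := by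
  have hz1 : 1 < ‖z‖ := hR.trans_le hz
  refine (goluzin_ext S.sg hz1 rfl).trans ?_
  have hz2 : 0 < ‖z‖ ^ 2 - 1 := by nlinarith
  have hR2 : 0 < R ^ 2 - 1 := by nlinarith
  apply Real.log_le_log (by positivity)
  rw [div_le_div_iff₀ hz2 hR2]
  nlinarith

/-- a uniform bound for the derivative -/
theorem sig_deriv_le {ψ h : ℂ → ℂ} (S : IsSig ψ h) {R : ℝ} (hR : 1 < R) {z : ℂ} (hz : R ≤ ‖z‖) :
    ‖deriv h z‖ ≤ Real.log (((R + 1) / 2) ^ 2 / (((R + 1) / 2) ^ 2 - 1)) / ((R - 1) / 2) := by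
  have hρ : 0 < (R - 1) / 2 := by linarith
  have hcl : ∀ w ∈ closedBall z ((R - 1) / 2), (R + 1) / 2 ≤ ‖w‖ := by
    intro w hw
    rw [mem_closedBall_iff_norm] at hw
    have h1 := norm_sub_norm_le z (z - w)
    rw [sub_sub_cancel, norm_sub_rev z w] at h1
    linarith
  apply Complex.norm_deriv_le_of_forall_mem_sphere_norm_le hρ
  · apply DifferentiableOn.diffContOnCl
    rw [closure_ball _ hρ.ne']
    exact S.2.2.2.1.mono fun w hw => lt_of_lt_of_le (by linarith) (hcl w hw)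
  · intro w hw
    exact sig_le S (by linarith) (hcl w (sphere_subset_closedBall hw))

/-- far away `h` is the principal logarithm -/
theorem sig_log {ψ h : ℂ → ℂ} (S : IsSig ψ h) {z : ℂ} (hz : 2 ≤ ‖z‖) :
    deriv ψ z ∈ slitPlane ∧ h z = Complex.log (deriv ψ z) := by
  have hz1 : 1 < ‖z‖ := by linarith
  have h1 := sig_le S (by norm_num : (1 : ℝ) < 2) hz
  have h2 : Real.log ((2 : ℝ) ^ 2 / (2 ^ 2 - 1)) ≤ 1 := by
    have := Real.log_le_sub_one_of_pos (show (0 : ℝ) < 2 ^ 2 / (2 ^ 2 - 1) by norm_num)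
    norm_num at this ⊢
    linarith
  have h3 : |(h z).im| ≤ 1 := (Complex.abs_im_le_norm _).trans (h1.trans h2)
  have h4 := abs_le.1 h3
  have hpi := Real.pi_gt_three
  rw [← S.2.2.2.2.1 z hz1]
  refine ⟨?_, ?_⟩
  · rw [mem_slitPlane_iff]
    left
    rw [Complex.exp_re]
    apply mul_pos (Real.exp_pos _)
    apply Real.cos_pos_of_mem_Ioo
    constructor <;> linarith
  · rw [Complex.log_exp (by linarith) (by linarith)]

theorem seg_norm {z : ℂ} {t : ℝ} (ht : 1 ≤ t) : ‖z‖ ≤ ‖(t : ℂ) * z‖ := by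
  rw [norm_mul, Complex.norm_real, Real.norm_eq_abs, abs_of_nonneg (by linarith)]
  nlinarith [norm_nonneg z]

/-- `h` from the principal logarithm and `h'` -/
theorem sig_int {ψ h : ℂ → ℂ} (S : IsSig ψ h) {z : ℂ} (hz : 1 < ‖z‖) :
    h z = Complex.log (deriv ψ (2 * z)) - ∫ t in (1 : ℝ)..2, deriv h ((t : ℂ) * z) * z := by
  have hd : DifferentiableOn ℂ (deriv h) {z : ℂ | 1 < ‖z‖} := S.2.2.2.1.deriv isOpen_ext
  have h2 : (2 : ℝ) ≤ ‖2 * z‖ := by
    rw [norm_mul]
    norm_num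
    linarith
  have hu : uIcc (1 : ℝ) 2 = Icc 1 2 := uIcc_of_le (by norm_num)
  rw [← (sig_log S h2).2]
  have h3 : ∫ t in (1 : ℝ)..2, deriv h ((t : ℂ) * z) * z = h (((2 : ℝ) : ℂ) * z) - h (((1 : ℝ) : ℂ) * z) := by
    apply intervalIntegral.integral_eq_sub_of_hasDerivAt (f := fun t : ℝ => h ((t : ℂ) * z))
    · intro t ht
      rw [hu] at ht
      have h4 : HasDerivAt h (deriv h ((t : ℂ) * z)) ((t : ℂ) * z) :=
        (S.2.2.2.1.differentiableAt (isOpen_ext.mem_nhds (hz.trans_le (seg_norm ht.1)))).hasDerivAt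
      have h5 : HasDerivAt (fun t : ℝ => (t : ℂ) * z) z t := by
        have := (Complex.ofRealCLM.hasDerivAt (x := t)).mul_const z
        simpa using this
      exact h4.comp_of_eq t h5 rfl
    · apply ContinuousOn.intervalIntegrable
      rw [hu]
      apply ContinuousOn.mul _ continuousOn_const
      apply hd.continuousOn.comp (by fun_prop)
      intro t ht
      exact hz.trans_le (seg_norm ht.1)
  rw [h3]
  push_cast
  rw [one_mul]
  ring

theorem fam_cont {ψ h : ℂ → ℂ → ℂ} (F : Fam ψ h) {z : ℂ} (hz : 1 < ‖z‖) :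
    ContinuousOn (fun s => h s z) (ball 0 1) := by
  have h2 : (2 : ℝ) ≤ ‖2 * z‖ := by
    rw [norm_mul]
    norm_num
    linarith
  have h21 : 1 < ‖2 * z‖ := by linarith
  have h1 : ContinuousOn (fun s => Complex.log (deriv (ψ s) (2 * z)) -
      ∫ t in (1 : ℝ)..2, deriv (h s) ((t : ℂ) * z) * z) (ball 0 1) := by
    apply ContinuousOn.sub
    · apply (F.d1 h21).continuousOn.clog
      intro s hs
      exact (sig_log (F.1 s (mem_ball_zero_iff.1 hs)) h2).1
    · intro s₀ hs₀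
      apply ContinuousAt.continuousWithinAt
      apply intervalIntegral.continuousAt_of_dominated_interval (bound := fun _ =>
        Real.log (((‖z‖ + 1) / 2) ^ 2 / (((‖z‖ + 1) / 2) ^ 2 - 1)) / ((‖z‖ - 1) / 2) * ‖z‖)
      · filter_upwards [isOpen_ball.mem_nhds hs₀] with s hs
        have S := F.1 s (mem_ball_zero_iff.1 hs)
        have hd : DifferentiableOn ℂ (deriv (h s)) {z : ℂ | 1 < ‖z‖} := S.2.2.2.1.deriv isOpen_ext
        have hc : ContinuousOn (fun t : ℝ => deriv (h s) ((t : ℂ) * z) * z) (uIoc 1 2) := by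
          apply ContinuousOn.mul _ continuousOn_const
          apply hd.continuousOn.comp (by fun_prop)
          intro t ht
          rw [uIoc_of_le (by norm_num)] at ht
          exact hz.trans_le (seg_norm ht.1.le)
        exact hc.aestronglyMeasurable measurableSet_uIoc
      · filter_upwards [isOpen_ball.mem_nhds hs₀] with s hs
        apply Eventually.of_forall
        intro t ht
        rw [uIoc_of_le (by norm_num)] at ht
        rw [norm_mul]
        apply mul_le_mul_of_nonneg_right _ (norm_nonneg _)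
        exact sig_deriv_le (F.1 s (mem_ball_zero_iff.1 hs)) hz (seg_norm ht.1.le)
      · exact intervalIntegrable_const
      · apply Eventually.of_forall
        intro t ht
        rw [uIoc_of_le (by norm_num)] at ht
        have h5 := (F.dh (hz.trans_le (seg_norm ht.1.le))).continuousOn.continuousAt
          (isOpen_ball.mem_nhds hs₀)
        exact h5.mul continuousAt_const
  exact h1.congr fun s hs => sig_int (F.1 s (mem_ball_zero_iff.1 hs)) hz

/-- a continuous logarithm of a holomorphic function is holomorphic -/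
theorem lift_diff {g k : ℂ → ℂ} {U : Set ℂ} (hU : IsOpen U) (hg : ContinuousOn g U)
    (hk : DifferentiableOn ℂ k U) (hgk : ∀ s ∈ U, Complex.exp (g s) = k s) :
    DifferentiableOn ℂ g U := by
  intro s₀ hs₀
  apply DifferentiableAt.differentiableWithinAt
  have hk0 : k s₀ ≠ 0 := by rw [← hgk s₀ hs₀]; exact Complex.exp_ne_zero _
  have hkd : DifferentiableAt ℂ k s₀ := hk.differentiableAt (hU.mem_nhds hs₀)
  have h1 : DifferentiableAt ℂ (fun s => g s₀ + Complex.log (k s / k s₀)) s₀ := by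
    apply DifferentiableAt.const_add
    apply (hkd.div_const _).clog
    rw [div_self hk0]
    exact one_mem_slitPlane
  refine h1.congr_of_eventuallyEq ?_
  have hc : ContinuousAt g s₀ := hg.continuousAt (hU.mem_nhds hs₀)
  have h2 : ∀ᶠ s in 𝓝 s₀, ‖g s - g s₀‖ < 1 := by
    have := hc.eventually (ball_mem_nhds (g s₀) one_pos)
    filter_upwards [this] with s hs
    rwa [dist_eq_norm] at hs
  filter_upwards [h2, hU.mem_nhds hs₀] with s hs hsU
  have h3 : |(g s - g s₀).im| < 1 := (Complex.abs_im_le_norm _).trans_lt hs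
  have h4 := abs_lt.1 h3
  have hpi := Real.pi_gt_three
  rw [← hgk s hsU, ← hgk s₀ hs₀, ← Complex.exp_sub, Complex.log_exp (by linarith) (by linarith)]
  ring

theorem fam_diff {ψ h : ℂ → ℂ → ℂ} (F : Fam ψ h) {z : ℂ} (hz : 1 < ‖z‖) :
    DifferentiableOn ℂ (fun s => h s z) (ball 0 1) :=
  lift_diff isOpen_ball (fam_cont F hz) (F.d1 hz) fun s hs =>
    (F.1 s (mem_ball_zero_iff.1 hs)).2.2.2.2.1 z hz

theorem fam_joint {ψ h : ℂ → ℂ → ℂ} (F : Fam ψ h) :
    ContinuousOn (fun p : ℂ × ℂ => h p.1 p.2) {p : ℂ × ℂ | ‖p.1‖ < 1 ∧ 1 < ‖p.2‖} := by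
  intro p hp
  obtain ⟨hp1, hp2⟩ := hp
  apply ContinuousAt.continuousWithinAt
  obtain ⟨z, hz⟩ : ∃ z : ℂ, z = p.2 := ⟨_, rfl⟩
  rw [← hz] at hp2
  have hR : 1 < (‖z‖ + 1) / 2 := by linarith
  obtain ⟨K, hK⟩ : ∃ K : ℝ, K = Real.log ((((‖z‖ + 1) / 2 + 1) / 2) ^ 2 /
    ((((‖z‖ + 1) / 2 + 1) / 2) ^ 2 - 1)) / (((‖z‖ + 1) / 2 - 1) / 2) := ⟨_, rfl⟩
  have hL : ∀ s ∈ ball (0 : ℂ) 1, LipschitzOnWith K.toNNReal (fun w => h s w)
      (ball z ((‖z‖ - 1) / 2)) := by
    intro s hs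
    have S := F.1 s (mem_ball_zero_iff.1 hs)
    apply (convex_ball z ((‖z‖ - 1) / 2)).lipschitzOnWith_of_nnnorm_deriv_le (𝕜 := ℂ)
    · intro w hw
      exact S.2.2.2.1.differentiableAt (isOpen_ext.mem_nhds (hR.trans_le (ball_ext hw)))
    · intro w hw
      have h1 := sig_deriv_le S hR (ball_ext hw)
      rw [← hK] at h1
      rw [← NNReal.coe_le_coe, coe_nnnorm]
      exact h1.trans (Real.le_coe_toNNReal K)
  have hc := continuousOn_prod_of_continuousOn_lipschitzOnWith' (fun p : ℂ × ℂ => h p.1 p.2)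
    K.toNNReal (s := ball (0 : ℂ) 1) (t := ball z ((‖z‖ - 1) / 2)) hL
    (fun w hw => fam_cont F (hR.trans_le (ball_ext hw)))
  apply hc.continuousAt
  apply prod_mem_nhds
  · exact isOpen_ball.mem_nhds (mem_ball_zero_iff.2 hp1)
  · rw [← hz]
    exact ball_mem_nhds z (by linarith)

theorem fam_zero {ψ h : ℂ → ℂ → ℂ} (F : Fam ψ h) {z : ℂ} (hz : 1 < ‖z‖) : h 0 z = 0 := by
  have S := F.1 0 (by simp)
  obtain ⟨b, hb⟩ := F.2.2
  have h2 : (2 : ℝ) ≤ ‖2 * z‖ := by
    rw [norm_mul]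
    norm_num
    linarith
  rw [sig_int S hz]
  have h3 : deriv (ψ 0) (2 * z) = 1 := by
    have h1 : ψ 0 =ᶠ[𝓝 (2 * z)] fun z => z + b := by
      filter_upwards [isOpen_ext.mem_nhds (show 1 < ‖2 * z‖ by linarith)] with x hx using hb x hx
    rw [h1.deriv_eq]
    simp
  rw [h3, Complex.log_one, zero_sub, neg_eq_zero]
  have h4 : ∫ t in (1 : ℝ)..2, deriv (h 0) ((t : ℂ) * z) * z = ∫ t in (1 : ℝ)..2, (0 : ℂ) := by
    apply intervalIntegral.integral_congr
    intro t ht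
    rw [uIcc_of_le (by norm_num)] at ht
    show deriv (h 0) ((t : ℂ) * z) * z = 0
    rw [F.h0 (hz.trans_le (seg_norm ht.1)), zero_mul]
  rw [h4, intervalIntegral.integral_zero]

/-- the mean over the circle -/
theorem mean_le2 {H : ℂ → ℂ → ℂ}
    (hH : ContinuousOn (fun p : ℂ × ℂ => H p.1 p.2) {p : ℂ × ℂ | ‖p.1‖ < 1 ∧ 1 < ‖p.2‖})
    (hHd : ∀ z : ℂ, 1 < ‖z‖ → DifferentiableOn ℂ (fun l => H l z) (ball 0 1))
    (hH0 : ∀ z : ℂ, 1 < ‖z‖ → H 0 z = 0) {a a₁ L ρ C R : ℝ} {b : ℂ} (ha : 0 ≤ a) (hL : 0 < L)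
    (hR : 1 < R) (hb : ‖b‖ < 1) (hρ0 : 0 < ρ) (hρ1 : ρ < 1) (hab : a * ‖b‖ ^ 2 ≤ a₁)
    (hC : ∀ l : ℂ, ‖l‖ < 1 → (1 / (2 * Real.pi)) *
      ∫ θ in (0 : ℝ)..(2 * Real.pi), Real.exp (a₁ * ‖H l (ci R θ)‖ ^ 2 / L) ≤ C) :
    (1 / (2 * Real.pi)) * ∫ θ in (0 : ℝ)..(2 * Real.pi),
      Real.exp (a * ‖H (ρ * b) (ci R θ)‖ ^ 2 / L) ≤ C := by
  have hpi : 0 < 2 * Real.pi := by positivity
  have hz : ∀ θ, 1 < ‖ci R θ‖ := fun θ => by rw [ci_norm (by linarith)]; exact hR
  have hcT : Continuous fun φ : ℝ => T b ρ (circleMap 0 1 φ) :=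
    (T_diff hb).continuousOn.comp_continuous (continuous_circleMap 0 1) fun φ => by
      rw [mem_closedBall_zero_iff, norm_circleMap_zero, abs_one]
  have hTn : ∀ φ : ℝ, ‖T b ρ (circleMap 0 1 φ)‖ < 1 := fun φ => by
    have h1 : ‖circleMap (0 : ℂ) 1 φ‖ = 1 := by rw [norm_circleMap_zero, abs_one]
    rw [T_eq hb hρ0.le h1]
    exact hρ1
  obtain ⟨K, hK⟩ : ∃ K : ℝ → ℝ → ℝ, K = fun θ φ =>
    Real.exp (a₁ * ‖H (T b ρ (circleMap 0 1 φ)) (ci R θ)‖ ^ 2 / L) := ⟨_, rfl⟩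
  have hKc : Continuous (Function.uncurry K) := by
    have h1 : Continuous fun p : ℝ × ℝ => H (T b ρ (circleMap 0 1 p.2)) (ci R p.1) := by
      have h2 : Continuous fun p : ℝ × ℝ => ((T b ρ (circleMap 0 1 p.2), ci R p.1) : ℂ × ℂ) :=
        (hcT.comp continuous_snd).prodMk ((ci_cont R).comp continuous_fst)
      exact hH.comp_continuous h2 fun p => ⟨hTn p.2, hz p.1⟩
    rw [hK]
    exact Real.continuous_exp.comp (((continuous_const.mul (h1.norm.pow 2))).div_const L)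
  have hlb : ‖(ρ : ℂ) * b‖ < 1 := by
    rw [norm_mul, Complex.norm_real, Real.norm_eq_abs, abs_of_pos hρ0]
    nlinarith [norm_nonneg b]
  have hc1 : Continuous fun θ : ℝ => Real.exp (a * ‖H (ρ * b) (ci R θ)‖ ^ 2 / L) := by
    have h2 : Continuous fun θ : ℝ => (((ρ : ℂ) * b, ci R θ) : ℂ × ℂ) :=
      continuous_const.prodMk (ci_cont R)
    have h1 : Continuous fun θ : ℝ => H (ρ * b) (ci R θ) :=
      hH.comp_continuous h2 fun θ => ⟨hlb, hz θ⟩
    exact Real.continuous_exp.comp (((continuous_const.mul (h1.norm.pow 2))).div_const L)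
  have hc2 : Continuous fun θ : ℝ => ∫ φ in (0 : ℝ)..(2 * Real.pi), K θ φ :=
    intervalIntegral.continuous_parametric_intervalIntegral_of_continuous' hKc 0 (2 * Real.pi)
  have hKc' : Continuous (Function.uncurry fun φ θ : ℝ => K θ φ) := hKc.comp continuous_swap
  have hc3 : Continuous fun φ : ℝ => ∫ θ in (0 : ℝ)..(2 * Real.pi), K θ φ :=
    intervalIntegral.continuous_parametric_intervalIntegral_of_continuous' hKc' 0 (2 * Real.pi)
  have s1 : ∫ θ in (0 : ℝ)..(2 * Real.pi), Real.exp (a * ‖H (ρ * b) (ci R θ)‖ ^ 2 / L) ≤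
      ∫ θ in (0 : ℝ)..(2 * Real.pi), (2 * Real.pi)⁻¹ * ∫ φ in (0 : ℝ)..(2 * Real.pi), K θ φ := by
    apply intervalIntegral.integral_mono_on hpi.le (hc1.intervalIntegrable _ _)
      ((continuous_const.mul hc2).intervalIntegrable _ _)
    intro θ _
    have hd : DifferentiableOn ℂ (fun l => H l (ci R θ)) (ball 0 1) := hHd _ (hz θ)
    refine (point hd (hH0 _ (hz θ)) hb hρ0 hρ1 ha hL).trans ?_
    apply mul_le_mul_of_nonneg_left _ (by positivity)
    have hc4 : Continuous fun φ : ℝ => H (T b ρ (circleMap 0 1 φ)) (ci R θ) := by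
      have h2 : Continuous fun φ : ℝ => ((T b ρ (circleMap 0 1 φ), ci R θ) : ℂ × ℂ) :=
        hcT.prodMk continuous_const
      exact hH.comp_continuous h2 fun φ => ⟨hTn φ, hz θ⟩
    have hc5 : ∀ c : ℝ, Continuous fun φ : ℝ =>
        Real.exp (c * ‖H (T b ρ (circleMap 0 1 φ)) (ci R θ)‖ ^ 2 / L) := fun c =>
      Real.continuous_exp.comp (((continuous_const.mul (hc4.norm.pow 2))).div_const L)
    apply intervalIntegral.integral_mono_on hpi.le ((hc5 _).intervalIntegrable _ _)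
    · rw [hK]
      exact (hc5 a₁).intervalIntegrable _ _
    · intro φ _
      rw [hK]
      apply Real.exp_le_exp.2
      apply div_le_div_of_nonneg_right _ hL.le
      exact mul_le_mul_of_nonneg_right hab (sq_nonneg _)
  have s2 : ∫ θ in (0 : ℝ)..(2 * Real.pi), (2 * Real.pi)⁻¹ * ∫ φ in (0 : ℝ)..(2 * Real.pi), K θ φ =
      (2 * Real.pi)⁻¹ * ∫ φ in (0 : ℝ)..(2 * Real.pi), ∫ θ in (0 : ℝ)..(2 * Real.pi), K θ φ := by
    rw [intervalIntegral.integral_const_mul]
    congr 1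
    apply MeasureTheory.intervalIntegral_intervalIntegral_swap
    apply (hKc.continuousOn.integrableOn_compact (isCompact_uIcc.prod isCompact_uIcc)).mono_set
    exact Set.prod_mono Set.uIoc_subset_uIcc Set.uIoc_subset_uIcc
  have s3 : ∫ φ in (0 : ℝ)..(2 * Real.pi), ∫ θ in (0 : ℝ)..(2 * Real.pi), K θ φ ≤
      ∫ φ in (0 : ℝ)..(2 * Real.pi), 2 * Real.pi * C := by
    apply intervalIntegral.integral_mono_on hpi.le (hc3.intervalIntegrable _ _)
      (continuous_const.intervalIntegrable _ _)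
    intro φ _
    have h1 := hC _ (hTn φ)
    rw [one_div, inv_mul_le_iff₀ hpi] at h1
    rw [hK]
    exact h1
  rw [intervalIntegral.integral_const, sub_zero, smul_eq_mul] at s3
  rw [s2] at s1
  rw [one_div, inv_mul_le_iff₀ hpi]
  refine s1.trans ?_
  rw [inv_mul_le_iff₀ hpi]
  exact s3

end Pool.Agent.H76.QC
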