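import Mathlib

set_option autoImplicit false

/-! # Holomorphic families in the class `Σ` -/

namespace Pool.Agent.H76.QC

open Complex Metric Set Filter Topology MeasureTheory

/-- the disc automorphism times `ρ` -/
noncomputable def T (b : ℂ) (ρ : ℝ) (ζ : ℂ) : ℂ := (ρ : ℂ) * ((ζ + b) / (1 + (starRingEnd ℂ) b * ζ))

theorem den_ne {b ζ : ℂ} (hb : ‖b‖ < 1) (hζ : ‖ζ‖ ≤ 1) : 1 + (starRingEnd ℂ) b * ζ ≠ 0 := by
  intro h
  have h1 : (starRingEnd ℂ) b * ζ = -1 := by linear_combination h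
  have h2 : ‖b‖ * ‖ζ‖ = 1 := by
    have := congrArg norm h1
    rwa [norm_mul, RCLike.norm_conj, norm_neg, norm_one] at this
  nlinarith [norm_nonneg b, norm_nonneg ζ]

theorem sq_id (b ζ : ℂ) : ‖1 + (starRingEnd ℂ) b * ζ‖ ^ 2 - ‖ζ + b‖ ^ 2 =
    (1 - ‖b‖ ^ 2) * (1 - ‖ζ‖ ^ 2) := by
  rw [← Complex.normSq_eq_norm_sq, ← Complex.normSq_eq_norm_sq, ← Complex.normSq_eq_norm_sq,
    ← Complex.normSq_eq_norm_sq]
  simp only [Complex.normSq_apply, Complex.add_re, Complex.add_im, Complex.mul_re, Complex.mul_im,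
    Complex.conj_re, Complex.conj_im, Complex.one_re, Complex.one_im]
  ring

theorem T_le {b : ℂ} {ρ : ℝ} (hb : ‖b‖ < 1) (hρ : 0 ≤ ρ) {ζ : ℂ} (hζ : ‖ζ‖ ≤ 1) : ‖T b ρ ζ‖ ≤ ρ := by
  have hd : 0 < ‖1 + (starRingEnd ℂ) b * ζ‖ := norm_pos_iff.2 (den_ne hb hζ)
  have h1 := sq_id b ζ
  have h2 : 0 ≤ (1 - ‖b‖ ^ 2) * (1 - ‖ζ‖ ^ 2) := by
    apply mul_nonneg
    · nlinarith [norm_nonneg b]
    · nlinarith [norm_nonneg ζ]
  have h3 : ‖ζ + b‖ ≤ ‖1 + (starRingEnd ℂ) b * ζ‖ := by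
    apply le_of_sq_le_sq (by linarith) hd.le
  unfold T
  rw [norm_mul, norm_div, Complex.norm_real, Real.norm_eq_abs, abs_of_nonneg hρ]
  have h4 : ‖ζ + b‖ / ‖1 + (starRingEnd ℂ) b * ζ‖ ≤ 1 := (div_le_one hd).2 h3
  calc ρ * (‖ζ + b‖ / ‖1 + (starRingEnd ℂ) b * ζ‖) ≤ ρ * 1 := mul_le_mul_of_nonneg_left h4 hρ
    _ = ρ := mul_one ρ

theorem T_eq {b : ℂ} {ρ : ℝ} (hb : ‖b‖ < 1) (hρ : 0 ≤ ρ) {ζ : ℂ} (hζ : ‖ζ‖ = 1) : ‖T b ρ ζ‖ = ρ := by
  have hd : 0 < ‖1 + (starRingEnd ℂ) b * ζ‖ := norm_pos_iff.2 (den_ne hb hζ.le)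
  have h1 := sq_id b ζ
  rw [hζ] at h1
  have h3 : ‖ζ + b‖ = ‖1 + (starRingEnd ℂ) b * ζ‖ := by
    have h4 : ‖ζ + b‖ ^ 2 = ‖1 + (starRingEnd ℂ) b * ζ‖ ^ 2 := by linarith
    exact (pow_left_inj₀ (norm_nonneg _) hd.le two_ne_zero).1 h4
  unfold T
  rw [norm_mul, norm_div, Complex.norm_real, Real.norm_eq_abs, abs_of_nonneg hρ, h3,
    div_self hd.ne', mul_one]

theorem T_diff {b : ℂ} {ρ : ℝ} (hb : ‖b‖ < 1) : DifferentiableOn ℂ (T b ρ) (closedBall 0 1) := by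
  unfold T
  apply DifferentiableOn.const_mul
  apply DifferentiableOn.div
  · exact differentiableOn_id.add_const b
  · exact (differentiableOn_const 1).add (differentiableOn_id.const_mul _)
  · intro ζ hζ
    exact den_ne hb (mem_closedBall_zero_iff.1 hζ)

theorem conv_exp (c : ℝ) (hc : 0 ≤ c) : ConvexOn ℝ univ fun w : ℂ => Real.exp (c * ‖w‖ ^ 2) := by
  have h1 : ConvexOn ℝ univ fun w : ℂ => c * ‖w‖ ^ 2 := by
    have h2 := (convexOn_univ_norm (E := ℂ)).pow (fun w _ => norm_nonneg w) 2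
    exact h2.smul hc
  refine ⟨convex_univ, fun x _ y _ s t hs ht hst => ?_⟩
  have h3 := h1.2 (mem_univ x) (mem_univ y) hs ht hst
  have h4 := (convexOn_exp).2 (mem_univ (c * ‖x‖ ^ 2)) (mem_univ (c * ‖y‖ ^ 2)) hs ht hst
  exact (Real.exp_le_exp.2 h3).trans h4

/-- Jensen's inequality and the mean value property. -/
theorem jensen {F : ℂ → ℂ} (hF : DiffContOnCl ℂ F (ball 0 1)) {c : ℝ} (hc : 0 ≤ c) :
    Real.exp (c * ‖F 0‖ ^ 2) ≤
      (2 * Real.pi)⁻¹ * ∫ φ in (0 : ℝ)..(2 * Real.pi), Real.exp (c * ‖F (circleMap 0 1 φ)‖ ^ 2) := by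
  have hpi : 0 < 2 * Real.pi := by positivity
  have hm : ∀ φ : ℝ, circleMap 0 1 φ ∈ closedBall (0 : ℂ) 1 := fun φ => by
    rw [mem_closedBall_zero_iff, norm_circleMap_zero, abs_one]
  have hcF : Continuous fun φ : ℝ => F (circleMap 0 1 φ) := by
    have h1 := hF.continuousOn
    rw [closure_ball (0 : ℂ) one_ne_zero] at h1
    exact h1.comp_continuous (continuous_circleMap 0 1) hm
  have h0 : F 0 = ⨍ φ in (0 : ℝ)..(2 * Real.pi), F (circleMap 0 1 φ) := by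
    rw [← Real.circleAverage_eq_intervalAverage]
    have h2 : DiffContOnCl ℂ F (ball 0 |(1 : ℝ)|) := by rwa [abs_one]
    exact (h2.circleAverage).symm
  have hne : NeZero ((volume : Measure ℝ).restrict (Set.uIoc 0 (2 * Real.pi))) := by
    refine ⟨?_⟩
    rw [Ne, Measure.restrict_eq_zero, Set.uIoc_of_le hpi.le, Real.volume_Ioc]
    simp only [sub_zero, ENNReal.ofReal_eq_zero, not_le]
    exact hpi
  haveI : IsFiniteMeasure ((volume : Measure ℝ).restrict (Set.uIoc 0 (2 * Real.pi))) := by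
    rw [Set.uIoc_of_le hpi.le]
    infer_instance
  have hce : Continuous fun φ : ℝ => Real.exp (c * ‖F (circleMap 0 1 φ)‖ ^ 2) :=
    Real.continuous_exp.comp (continuous_const.mul (hcF.norm.pow 2))
  have h3 := (conv_exp c hc).map_average_le (μ := (volume : Measure ℝ).restrict (Set.uIoc 0 (2 * Real.pi)))
    (f := fun φ : ℝ => F (circleMap 0 1 φ)) (by fun_prop) isClosed_univ
    (Filter.Eventually.of_forall fun _ => mem_univ _)
    (hcF.integrableOn_uIoc)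
    (hce.integrableOn_uIoc)
  rw [h0]
  refine h3.trans (le_of_eq ?_)
  have h4 := interval_average_eq (fun φ : ℝ => Real.exp (c * ‖F (circleMap 0 1 φ)‖ ^ 2)) 0 (2 * Real.pi)
  rw [sub_zero, smul_eq_mul] at h4
  exact h4

end Pool.Agent.H76.QC
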